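import Mathlib

namespace Pool.Agent.Results.MP_8fcc33_co.NotMonotone

/-- The signed `h`-fold sumset of `A`. -/
def signedSumset {G : Type} [AddCommGroup G] (h : ℕ) (A : Finset G) : Set G :=
  {g | ∃ c : G → ℤ, ∑ a ∈ A, (c a).natAbs = h ∧ ∑ a ∈ A, c a • a = g}

/-- `A` is `t`-independent. -/
def TIndependent {G : Type} [AddCommGroup G] (t : ℕ) (A : Finset G) : Prop :=
  ∀ h : ℕ, 1 ≤ h → h ≤ t → (0 : G) ∉ signedSumset h A

/-- The maximum size of a `t`-independent subset of `G`. -/
noncomputable def tau (G : Type) [AddCommGroup G] (t : ℕ) : ℕ :=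
  sSup {k : ℕ | ∃ A : Finset G, A.card = k ∧ TIndependent t A}

/-- The sequence `tau(Z_n, [1,t])` for even `n = 2, 4, 6, ...`. -/
noncomputable def evenSeq (t : ℕ) (j : ℕ) : ℕ := tau (ZMod (2 * (j + 1))) t

/-! ### Two-element sets -/

/-- No short relation between `a` and `b`. -/
def NoShort {n : ℕ} (k : ℕ) (a b : ZMod n) : Prop :=
  ∀ x y : ℤ, x.natAbs + y.natAbs ≠ 0 → x.natAbs + y.natAbs ≤ 2 * k - 1 →
    (x : ZMod n) * a + (y : ZMod n) * b ≠ 0

lemma NoShort.neg {n k : ℕ} {a b : ZMod n} (h : NoShort k a b) : NoShort k a (-b) := by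
  intro x y h1 h2 h3
  apply h x (-y)
  · simpa using h1
  · simpa using h2
  · rw [← h3]; push_cast; ring

lemma noShort_of_indep {n k : ℕ} {A : Finset (ZMod n)} (hA : TIndependent (2 * k - 1) A)
    {a b : ZMod n} (ha : a ∈ A) (hb : b ∈ A) (hab : a ≠ b) : NoShort k a b := by
  intro x y h1 h2 h3
  refine hA (x.natAbs + y.natAbs) (by omega) h2 ?_
  refine ⟨fun g => if g = a then x else if g = b then y else 0, ?_, ?_⟩
  · have : ∀ g ∈ A, (if g = a then x else if g = b then y else (0 : ℤ)).natAbs =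
        (if g = a then x.natAbs else 0) + (if g = b then y.natAbs else 0) := by
      intro g _
      by_cases hga : g = a
      · subst hga; simp [hab]
      · by_cases hgb : g = b
        · subst hgb; simp [hga]
        · simp [hga, hgb]
    rw [Finset.sum_congr rfl this, Finset.sum_add_distrib, Finset.sum_ite_eq' A a,
      Finset.sum_ite_eq' A b]
    simp [ha, hb]
  · have : ∀ g ∈ A, (if g = a then x else if g = b then y else (0 : ℤ)) • g =
        (if g = a then (x : ZMod n) * a else 0) + (if g = b then (y : ZMod n) * b else 0) := by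
      intro g _
      by_cases hga : g = a
      · subst hga; simp [hab]
      · by_cases hgb : g = b
        · subst hgb; simp [hga]
        · simp [hga, hgb]
    rw [Finset.sum_congr rfl this, Finset.sum_add_distrib, Finset.sum_ite_eq' A a,
      Finset.sum_ite_eq' A b]
    simp only [ha, hb, if_true]
    exact h3

/-- The images of the `2k^2` points of a diamond are pairwise distinct. -/
lemma many (k n : ℕ) (hk : 1 ≤ k) [NeZero n] (a b : ZMod n) (h : NoShort k a b)
    (K : AddSubgroup (ZMod n)) (ha : a ∈ K) (hb : b ∈ K) : 2 * k ^ 2 ≤ Nat.card K := by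
  classical
  let f : (Fin k × Fin k) × Fin 2 → K := fun p =>
    ⟨((p.1.1.val + p.1.2.val + p.2.val : ℤ) : ZMod n) * a +
      ((p.1.1.val - p.1.2.val : ℤ) : ZMod n) * b, by
      apply K.add_mem
      · rw [← zsmul_eq_mul]; exact K.zsmul_mem ha _
      · rw [← zsmul_eq_mul]; exact K.zsmul_mem hb _⟩
  have hf : Function.Injective f := by
    rintro ⟨⟨i, j⟩, e⟩ ⟨⟨i', j'⟩, e'⟩ hff
    have h1 := congrArg Subtype.val hff
    simp only [f] at h1
    by_contra hne
    refine h (((i.val + j.val + e.val : ℤ)) - (i'.val + j'.val + e'.val : ℤ))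
      ((i.val - j.val : ℤ) - (i'.val - j'.val : ℤ)) ?_ ?_ ?_
    · intro h0
      apply hne
      have hi := i.2; have hj := j.2; have he := e.2
      have hi' := i'.2; have hj' := j'.2; have he' := e'.2
      have e1 : i = i' := Fin.ext (by omega)
      have e2 : j = j' := Fin.ext (by omega)
      have e3 : e = e' := Fin.ext (by omega)
      rw [e1, e2, e3]
    · have hi := i.2; have hj := j.2; have he := e.2
      have hi' := i'.2; have hj' := j'.2; have he' := e'.2
      omega
    · push_cast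
      push_cast at h1
      linear_combination h1
  have := Nat.card_le_card_of_injective f hf
  simp only [Nat.card_eq_fintype_card, Fintype.card_prod, Fintype.card_fin] at this
  rw [Nat.card_eq_fintype_card]
  nlinarith [this]

/-- A relation close to the diagonal. -/
lemma rel (k : ℕ) (hk : 3 ≤ k) (a b : ZMod (2 * k ^ 2 + 2)) (h : NoShort k a b) :
    ∃ s : ℤ, s.natAbs ≤ k - 1 ∧
      ((k + s : ℤ) : ZMod (2 * k ^ 2 + 2)) * a + ((k - s : ℤ) : ZMod (2 * k ^ 2 + 2)) * b = 0 := by
  classical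
  let f : (Fin (k + 1) × Fin k) ⊕ (Fin k × Fin k) → ZMod (2 * k ^ 2 + 2) := fun p =>
    match p with
    | Sum.inl p => ((p.1.val + p.2.val : ℤ) : ZMod _) * a + ((p.1.val - p.2.val : ℤ) : ZMod _) * b
    | Sum.inr p => ((p.1.val + p.2.val + 1 : ℤ) : ZMod _) * a +
        ((p.1.val - p.2.val : ℤ) : ZMod _) * b
  have hcard : Fintype.card (ZMod (2 * k ^ 2 + 2)) <
      Fintype.card ((Fin (k + 1) × Fin k) ⊕ (Fin k × Fin k)) := by
    rw [ZMod.card]
    simp only [Fintype.card_sum, Fintype.card_prod, Fintype.card_fin]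
    nlinarith
  obtain ⟨p, q, hpq, hf⟩ := Fintype.exists_ne_map_eq_of_card_lt f hcard
  -- general finishing step: a short-ish vector (x,y)
  have fin : ∀ x y : ℤ, (x : ZMod (2 * k ^ 2 + 2)) * a + (y : ZMod (2 * k ^ 2 + 2)) * b = 0 →
      (x + y).natAbs ≤ 2 * k → (x - y).natAbs ≤ 2 * k - 1 → ¬ (x = 0 ∧ y = 0) →
      ∃ s : ℤ, s.natAbs ≤ k - 1 ∧ ((k + s : ℤ) : ZMod (2 * k ^ 2 + 2)) * a +
        ((k - s : ℤ) : ZMod (2 * k ^ 2 + 2)) * b = 0 := by
    intro x y h0 h1 h2 h3
    have hbig : ¬ (x.natAbs + y.natAbs ≤ 2 * k - 1) := by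
      intro hle
      exact h x y (by omega) hle h0
    have hcases : x + y = 2 * k ∨ x + y = -(2 * k) := by omega
    rcases hcases with hc | hc
    · refine ⟨x - k, by omega, ?_⟩
      have e1 : (k + (x - k) : ℤ) = x := by ring
      have e2 : (k - (x - k) : ℤ) = y := by linarith
      rw [e1, e2]; exact h0
    · refine ⟨-x - k, by omega, ?_⟩
      have e1 : (k + (-x - k) : ℤ) = -x := by ring
      have e2 : (k - (-x - k) : ℤ) = -y := by linarith
      rw [e1, e2]
      push_cast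
      linear_combination -h0
  rcases p with ⟨i, j⟩ | ⟨i, j⟩ <;> rcases q with ⟨i', j'⟩ | ⟨i', j'⟩ <;> simp only [f] at hf <;>
    have hi := i.2 <;> have hj := j.2 <;> have hi' := i'.2 <;> have hj' := j'.2
  · refine fin ((i.val + j.val : ℤ) - (i'.val + j'.val)) ((i.val - j.val : ℤ) - (i'.val - j'.val))
      ?_ (by omega) (by omega) ?_
    · push_cast; push_cast at hf; linear_combination hf
    · intro h0
      apply hpq
      have e1 : i = i' := Fin.ext (by omega)
      have e2 : j = j' := Fin.ext (by omega)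
      rw [e1, e2]
  · refine fin ((i.val + j.val : ℤ) - (i'.val + j'.val + 1))
      ((i.val - j.val : ℤ) - (i'.val - j'.val)) ?_ (by omega) (by omega) ?_
    · push_cast; push_cast at hf; linear_combination hf
    · intro h0; omega
  · refine fin ((i.val + j.val + 1 : ℤ) - (i'.val + j'.val))
      ((i.val - j.val : ℤ) - (i'.val - j'.val)) ?_ (by omega) (by omega) ?_
    · push_cast; push_cast at hf; linear_combination hf
    · intro h0; omega
  · refine fin ((i.val + j.val + 1 : ℤ) - (i'.val + j'.val + 1))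
      ((i.val - j.val : ℤ) - (i'.val - j'.val)) ?_ (by omega) (by omega) ?_
    · push_cast; push_cast at hf; linear_combination hf
    · intro h0
      apply hpq
      have e1 : i = i' := Fin.ext (by omega)
      have e2 : j = j' := Fin.ext (by omega)
      rw [e1, e2]

/-- In `Z_{2k^2+2}`, `k` odd, any two elements satisfy a short relation. -/
lemma no_pair (k m : ℕ) (hkdef : k = 2 * m + 1) (hm : 1 ≤ m) (a b : ZMod (2 * k ^ 2 + 2))
    (h : NoShort k a b) : False := by
  have hk3 : 3 ≤ k := by omega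
  obtain ⟨s, hs, hs0⟩ := rel k hk3 a b h
  obtain ⟨r, hr, hr0⟩ := rel k hk3 a (-b) h.neg
  -- the determinant kills a and b
  set D : ℤ := 2 * ((k : ℤ) ^ 2 - s * r) with hD
  have ha : (D : ZMod (2 * k ^ 2 + 2)) * a = 0 := by
    rw [hD]; push_cast; push_cast at hs0 hr0
    linear_combination ((k : ZMod (2 * k ^ 2 + 2)) - r) * hs0 + ((k : ZMod (2 * k ^ 2 + 2)) - s) * hr0
  have hb : (D : ZMod (2 * k ^ 2 + 2)) * b = 0 := by
    rw [hD]; push_cast; push_cast at hs0 hr0
    linear_combination ((k : ZMod (2 * k ^ 2 + 2)) + r) * hs0 - ((k : ZMod (2 * k ^ 2 + 2)) + s) * hr0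
  -- hence D = 0 in Z_n
  let K : AddSubgroup (ZMod (2 * k ^ 2 + 2)) :=
    (AddMonoidHom.mulLeft (D : ZMod (2 * k ^ 2 + 2))).ker
  have haK : a ∈ K := by rw [AddMonoidHom.mem_ker]; exact ha
  have hbK : b ∈ K := by rw [AddMonoidHom.mem_ker]; exact hb
  have hcK : 2 * k ^ 2 ≤ Nat.card K := many k _ (by omega) a b h K haK hbK
  have hdvd : Nat.card K ∣ 2 * k ^ 2 + 2 := by
    have := K.card_addSubgroup_dvd_card
    rwa [Nat.card_eq_fintype_card (α := ZMod (2 * k ^ 2 + 2)), ZMod.card] at this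
  have hcardK : Nat.card K = 2 * k ^ 2 + 2 := by
    obtain ⟨c, hc⟩ := hdvd
    have hc1 : c = 1 := by
      have h9 : 9 ≤ k ^ 2 := by nlinarith
      by_contra hne
      rcases Nat.lt_or_ge c 1 with h1 | h1
      · have : c = 0 := by omega
        subst this; omega
      · have h2 : 2 ≤ c := by omega
        nlinarith
    rw [hc1, mul_one] at hc
    exact hc.symm
  have htop : K = ⊤ := by
    apply AddSubgroup.eq_top_of_card_eq
    rw [hcardK, Nat.card_eq_fintype_card, ZMod.card]
  have hD0 : (D : ZMod (2 * k ^ 2 + 2)) = 0 := by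
    have h1 : (1 : ZMod (2 * k ^ 2 + 2)) ∈ K := by rw [htop]; exact AddSubgroup.mem_top _
    rw [AddMonoidHom.mem_ker] at h1
    simpa using h1
  rw [ZMod.intCast_zmod_eq_zero_iff_dvd] at hD0
  obtain ⟨j, hj⟩ := hD0
  push_cast at hj
  -- k^2 - s r = j (k^2+1)
  have hj' : (k : ℤ) ^ 2 - s * r = j * ((k : ℤ) ^ 2 + 1) := by rw [hD] at hj; linarith
  have hsr : |s * r| ≤ ((k : ℤ) - 1) ^ 2 := by
    rw [abs_mul]
    have h1 : |s| ≤ (k : ℤ) - 1 := by rw [← Int.natCast_natAbs s]; omega
    have h2 : |r| ≤ (k : ℤ) - 1 := by rw [← Int.natCast_natAbs r]; omega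
    nlinarith [abs_nonneg s, abs_nonneg r]
  have hk3' : (3 : ℤ) ≤ k := by exact_mod_cast hk3
  have hsr1 := (abs_le.1 hsr).1
  have hsr2 := (abs_le.1 hsr).2
  have hj1 : j = 1 := by
    have hpos : 0 < j := by
      by_contra hcon
      push Not at hcon
      nlinarith
    have hlt : j < 2 := by
      by_contra hcon
      push Not at hcon
      nlinarith
    omega
  rw [hj1] at hj'
  have hsr0 : s * r = -1 := by linarith
  -- two involutions
  have hkm : (k : ℤ) = 2 * m + 1 := by rw [hkdef]; push_cast; ring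
  have inv : ∀ e : ZMod (2 * k ^ 2 + 2), 2 * e = 0 → e ≠ 0 →
      e = ((k ^ 2 + 1 : ℕ) : ZMod (2 * k ^ 2 + 2)) := by
    intro e he hne
    have h1 : ((2 * e.val : ℕ) : ZMod (2 * k ^ 2 + 2)) = 0 := by
      push_cast
      rw [ZMod.natCast_zmod_val]; exact he
    rw [ZMod.natCast_eq_zero_iff] at h1
    have h2 : e.val < 2 * k ^ 2 + 2 := ZMod.val_lt e
    have h3 : e.val ≠ 0 := by
      intro h0; exact hne ((ZMod.val_eq_zero e).1 h0)
    obtain ⟨c, hc⟩ := h1
    have h4 : c = 1 := by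
      rcases Nat.lt_or_ge c 1 with h5 | h5
      · have : c = 0 := by omega
        subst this; omega
      · rcases Nat.lt_or_ge c 2 with h6 | h6
        · omega
        · nlinarith
    subst h4
    have h5 : e.val = k ^ 2 + 1 := by omega
    rw [← h5, ZMod.natCast_zmod_val]
  have main : ∀ x y z w : ℤ, 
      (2 : ZMod (2 * k ^ 2 + 2)) * ((x : ZMod (2 * k ^ 2 + 2)) * a + (y : ZMod (2 * k ^ 2 + 2)) * b) = 0 →
      (2 : ZMod (2 * k ^ 2 + 2)) * ((z : ZMod (2 * k ^ 2 + 2)) * a + (w : ZMod (2 * k ^ 2 + 2)) * b) = 0 →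
      x.natAbs + y.natAbs ≠ 0 → x.natAbs + y.natAbs ≤ 2 * k - 1 →
      z.natAbs + w.natAbs ≠ 0 → z.natAbs + w.natAbs ≤ 2 * k - 1 →
      (x - z).natAbs + (y - w).natAbs ≠ 0 → (x - z).natAbs + (y - w).natAbs ≤ 2 * k - 1 → False := by
    intro x y z w h1 h2 h3 h4 h5 h6 h7 h8
    have e1 := inv _ h1 (h x y h3 h4)
    have e2 := inv _ h2 (h z w h5 h6)
    apply h (x - z) (y - w) h7 h8
    push_cast
    linear_combination e1 - e2
  have hcases : (s = 1 ∧ r = -1) ∨ (s = -1 ∧ r = 1) := by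
    have hs1 : s ∣ 1 := ⟨-r, by linarith⟩
    rcases Int.isUnit_iff.1 (isUnit_of_dvd_one hs1) with h1 | h1
    · left; exact ⟨h1, by rw [h1] at hsr0; linarith⟩
    · right; exact ⟨h1, by rw [h1] at hsr0; linarith⟩
  rcases hcases with ⟨h1, h2⟩ | ⟨h1, h2⟩
  · rw [h1] at hs0; rw [h2] at hr0
    refine main (m + 1) m m (-(m + 1)) ?_ ?_ (by omega) (by omega) (by omega) (by omega)
      (by omega) (by omega)
    · rw [hkm] at hs0; push_cast at hs0 ⊢
      linear_combination hs0
    · rw [hkm] at hr0; push_cast at hr0 ⊢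
      linear_combination hr0
  · rw [h1] at hs0; rw [h2] at hr0
    refine main m (m + 1) (m + 1) (-m) ?_ ?_ (by omega) (by omega) (by omega) (by omega)
      (by omega) (by omega)
    · rw [hkm] at hs0; push_cast at hs0 ⊢
      linear_combination hs0
    · rw [hkm] at hr0; push_cast at hr0 ⊢
      linear_combination hr0

lemma bdd (n : ℕ) [NeZero n] (t : ℕ) :
    BddAbove {k : ℕ | ∃ A : Finset (ZMod n), A.card = k ∧ TIndependent t A} := by
  refine ⟨Fintype.card (ZMod n), ?_⟩
  rintro k ⟨A, rfl, _⟩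
  exact Finset.card_le_univ A

lemma nonempt (n : ℕ) (t : ℕ) :
    {k : ℕ | ∃ A : Finset (ZMod n), A.card = k ∧ TIndependent t A}.Nonempty := by
  refine ⟨0, ∅, rfl, ?_⟩
  rintro h h1 _ ⟨c, hc, _⟩
  simp at hc
  omega

lemma tau_le (n : ℕ) [NeZero n] (t c : ℕ)
    (h : ∀ A : Finset (ZMod n), TIndependent t A → A.card ≤ c) : tau (ZMod n) t ≤ c := by
  apply csSup_le (nonempt n t)
  rintro k ⟨A, rfl, hA⟩
  exact h A hA

lemma le_tau (n : ℕ) [NeZero n] (t : ℕ) (A : Finset (ZMod n)) (hA : TIndependent t A) :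
    A.card ≤ tau (ZMod n) t :=
  le_csSup (bdd n t) ⟨A, rfl, hA⟩

/-- `{1, 2k+1}` is `(2k-1)`-independent in `Z_{2k^2}`. -/
lemma pair_indep (k : ℕ) (hk : 2 ≤ k) :
    ∃ A : Finset (ZMod (2 * k ^ 2)), A.card = 2 ∧ TIndependent (2 * k - 1) A := by
  have hne : (1 : ZMod (2 * k ^ 2)) ≠ ((2 * k + 1 : ℕ) : ZMod (2 * k ^ 2)) := by
    intro h
    have h1 : ((2 * k : ℕ) : ZMod (2 * k ^ 2)) = 0 := by
      push_cast at h ⊢
      linear_combination -h
    rw [ZMod.natCast_eq_zero_iff] at h1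
    have := Nat.le_of_dvd (by omega) h1
    nlinarith
  refine ⟨{1, ((2 * k + 1 : ℕ) : ZMod (2 * k ^ 2))}, Finset.card_pair hne, ?_⟩
  rintro h h1 h2 ⟨c, hc, hs⟩
  rw [Finset.sum_pair hne] at hc hs
  set x := c 1
  set y := c ((2 * k + 1 : ℕ) : ZMod (2 * k ^ 2))
  have hz : ((x + (2 * k + 1) * y : ℤ) : ZMod (2 * k ^ 2)) = 0 := by
    rw [← hs]
    simp only [zsmul_eq_mul]
    push_cast
    ring
  rw [ZMod.intCast_zmod_eq_zero_iff_dvd] at hz
  obtain ⟨q, hq⟩ := hz
  push_cast at hq
  -- x + y = 2k (k q - y)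
  have hu : x + y = 2 * k * (k * q - y) := by linarith
  have hub : |x + y| < 2 * k := by
    have := abs_add_le x y
    have h3 : |x| + |y| = (h : ℤ) := by
      rw [← hc]; push_cast; simp
    have h4 : (h : ℤ) ≤ 2 * k - 1 := by omega
    linarith
  have hw : (k : ℤ) * q - y = 0 := by
    by_contra hcon
    have h5 : 1 ≤ |(k : ℤ) * q - y| := Int.one_le_abs hcon
    rw [hu, abs_mul] at hub
    have h6 : |(2 * k : ℤ)| = 2 * k := abs_of_nonneg (by positivity)
    rw [h6] at hub
    nlinarith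
  have hy : y = k * q := by linarith
  have hx : x = -(k * q) := by rw [hw] at hu; linarith
  have hq0 : q = 0 := by
    by_contra hcon
    have h5 : 1 ≤ |q| := Int.one_le_abs hcon
    have h3 : |x| + |y| = (h : ℤ) := by
      rw [← hc]; push_cast; simp
    rw [hx, hy, abs_neg, abs_mul] at h3
    have h6 : |(k : ℤ)| = k := abs_of_nonneg (by positivity)
    rw [h6] at h3
    have h4 : (h : ℤ) ≤ 2 * k - 1 := by omega
    nlinarith
  rw [hq0] at hx hy
  simp at hx hy
  rw [hx, hy] at hc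
  simp at hc
  omega

/-- **Main theorem.** For every `t ≡ 1 (mod 4)`, `t ≥ 5`, the sequence of `tau(Z_n,[1,t])` over
even `n` is not monotone. -/
theorem result : ∀ t : ℕ, 5 ≤ t → t % 4 = 1 →
    ¬ (Monotone (evenSeq t) ∨ Antitone (evenSeq t)) := by
  intro t ht ht4
  obtain ⟨m, hm⟩ : ∃ m : ℕ, t = 2 * (2 * m + 1) - 1 := ⟨t / 4, by omega⟩
  have hm1 : 1 ≤ m := by omega
  set k := 2 * m + 1 with hk
  have hk3 : 3 ≤ k := by omega
  have hk9 : 9 ≤ k ^ 2 := by nlinarith
  -- value at n = 2 k^2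
  have hA : 2 ≤ evenSeq t (k ^ 2 - 1) := by
    unfold evenSeq
    have e : 2 * (k ^ 2 - 1 + 1) = 2 * k ^ 2 := by omega
    rw [e, hm]
    have : NeZero (2 * k ^ 2) := ⟨by positivity⟩
    obtain ⟨A, hc, hA⟩ := pair_indep k (by omega)
    exact hc.symm.le.trans (le_tau _ _ A hA)
  -- value at n = 2 k^2 + 2
  have hB : evenSeq t (k ^ 2) ≤ 1 := by
    unfold evenSeq
    have e : 2 * (k ^ 2 + 1) = 2 * k ^ 2 + 2 := by ring
    rw [e, hm]
    apply tau_le
    intro A hA
    by_contra hcon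
    push Not at hcon
    obtain ⟨a, ha, b, hb, hab⟩ := Finset.one_lt_card.1 hcon
    exact no_pair k m hk hm1 a b (noShort_of_indep hA ha hb hab)
  -- value at n = 2
  have hC : evenSeq t 0 ≤ 0 := by
    unfold evenSeq
    apply tau_le
    intro A hA
    by_contra hcon
    have hne : A.Nonempty := by
      rw [← Finset.card_pos]; omega
    obtain ⟨a, ha⟩ := hne
    refine hA 2 (by omega) (by omega) ⟨fun g => if g = a then 2 else 0, ?_, ?_⟩
    · have : ∀ g ∈ A, (if g = a then (2 : ℤ) else 0).natAbs = if g = a then 2 else 0 := by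
        intro g _; split_ifs <;> rfl
      rw [Finset.sum_congr rfl this, Finset.sum_ite_eq' A a]
      simp [ha]
    · have : ∀ g ∈ A, (if g = a then (2 : ℤ) else 0) • g = if g = a then (2 : ℤ) • a else 0 := by
        intro g _
        by_cases hg : g = a
        · subst hg; simp
        · simp [hg]
      rw [Finset.sum_congr rfl this, Finset.sum_ite_eq' A a]
      simp only [ha, if_true]
      have h2 : ∀ a : ZMod (2 * (0 + 1)), (2 : ℤ) • a = 0 := by decide
      exact h2 a
  rintro (h | h)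
  · have := h (show k ^ 2 - 1 ≤ k ^ 2 by omega)
    omega
  · have := h (show 0 ≤ k ^ 2 - 1 by omega)
    omega

end Pool.Agent.Results.MP_8fcc33_co.NotMonotone
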